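import Pool.Agent.R978.PD.E

/-!
# Randomly deleted parts, residues modulo `m`: characters and resampling (helper978)
-/

set_option autoImplicit false
set_option linter.unusedSectionVars false

open MeasureTheory ProbabilityTheory Filter Topology

namespace Pool.Agent.R978.PM

open Pool.Agent.R978.PD (tr tr_congr rho)

variable {m : ℕ} [NeZero m]

/-- the standard additive character -/
noncomputable def e (x : ZMod m) : ℂ := ZMod.stdAddChar x

theorem e_zero : e (0 : ZMod m) = 1 := AddChar.map_zero_eq_one _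

theorem e_add (x y : ZMod m) : e (x + y) = e x * e y := AddChar.map_add_eq_mul _ _ _

theorem norm_e (x : ZMod m) : ‖e x‖ = 1 := AddChar.norm_apply _ _

theorem e_sum {ι : Type} (s : Finset ι) (f : ι → ZMod m) :
    e (∑ i ∈ s, f i) = ∏ i ∈ s, e (f i) := by
  classical
  induction s using Finset.induction_on with
  | empty => simp [e_zero]
  | insert a s ha ih => rw [Finset.sum_insert ha, Finset.prod_insert ha, e_add, ih]

theorem e_ne_zero (x : ZMod m) : e x ≠ 0 := by
  intro h
  have := norm_e x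
  rw [h, norm_zero] at this
  exact zero_ne_one this

theorem e_neg (x : ZMod m) : e (-x) = (starRingEnd ℂ) (e x) := by
  have h1 : e (-x) * e x = 1 := by rw [← e_add, neg_add_cancel, e_zero]
  have h2 : (starRingEnd ℂ) (e x) * e x = 1 := by
    rw [mul_comm, Complex.mul_conj, Complex.normSq_eq_norm_sq, norm_e]
    norm_num
  exact mul_right_cancel₀ (e_ne_zero x) (h1.trans h2.symm)

theorem re_lt (x : ZMod m) (hx : x ≠ 0) : (e x).re < 1 := by
  have h1 : (e x).re ≤ 1 := by
    have := Complex.re_le_norm (e x)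
    rwa [norm_e] at this
  rcases h1.lt_or_eq with h | h
  · exact h
  · exfalso
    have h2 : (e x).im = 0 := by
      have h3 : Complex.normSq (e x) = 1 := by rw [Complex.normSq_eq_norm_sq, norm_e]; norm_num
      rw [Complex.normSq_apply, h] at h3
      have : (e x).im * (e x).im = 0 := by linarith
      exact mul_self_eq_zero.1 this
    have h4 : e x = 1 := Complex.ext (by simpa using h) (by simpa using h2)
    apply hx
    apply ZMod.injective_stdAddChar (N := m)
    show e x = e 0
    rw [h4, e_zero]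

theorem gap (m : ℕ) [NeZero m] :
    ∃ κ : ℝ, 0 < κ ∧ κ ≤ 1 ∧ ∀ x : ZMod m, x ≠ 0 → 2 * κ ≤ 1 - (e x).re := by
  classical
  by_cases hne : Nonempty {x : ZMod m // x ≠ 0}
  · obtain ⟨x0, hx0⟩ := Finite.exists_min (fun x : {x : ZMod m // x ≠ 0} => (1 - (e x.1).re) / 2)
    have h1 := re_lt x0.1 x0.2
    refine ⟨min ((1 - (e x0.1).re) / 2) 1, lt_min (by linarith) one_pos, min_le_right _ _, ?_⟩
    intro x hx
    have h2 := hx0 ⟨x, hx⟩
    have h3 : min ((1 - (e x0.1).re) / 2) 1 ≤ (1 - (e x).re) / 2 := (min_le_left _ _).trans h2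
    linarith
  · refine ⟨1, one_pos, le_refl _, fun x hx => absurd ⟨⟨x, hx⟩⟩ hne⟩

theorem lin_bound {κ σ ρ : ℝ} {z : ℂ} (hz : ‖z‖ = 1) (hκ0 : 0 ≤ κ) (hκ1 : κ ≤ 1)
    (hκ : 2 * κ ≤ 1 - z.re) (h0 : 0 ≤ σ) (h1 : σ ≤ 1 / 2) (p1 : σ ≤ ρ) (p2 : ρ ≤ 1 - σ) :
    ‖(ρ : ℂ) * z + (1 - ρ)‖ ≤ 1 - κ * σ := by
  have hr : 0 ≤ 1 - κ * σ := by nlinarith
  rw [← sq_le_sq₀ (norm_nonneg _) hr, ← Complex.normSq_eq_norm_sq, Complex.normSq_apply]
  have hzz : z.re * z.re + z.im * z.im = 1 := by
    have h3 : Complex.normSq z = 1 := by rw [Complex.normSq_eq_norm_sq, hz]; norm_num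
    rwa [Complex.normSq_apply] at h3
  have e1 : ((ρ : ℂ) * z + (1 - ρ)).re = ρ * z.re + (1 - ρ) := by simp
  have e2 : ((ρ : ℂ) * z + (1 - ρ)).im = ρ * z.im := by simp
  rw [e1, e2]
  have e3 : (ρ * z.re + (1 - ρ)) * (ρ * z.re + (1 - ρ)) + ρ * z.im * (ρ * z.im) =
      1 - 2 * (ρ * (1 - ρ)) * (1 - z.re) := by
    linear_combination ρ ^ 2 * hzz
  rw [e3]
  have h2 : σ * (1 - σ) ≤ ρ * (1 - ρ) := by nlinarith
  have h3 : σ / 2 ≤ ρ * (1 - ρ) := by nlinarith
  have h4 : (σ / 2) * (2 * κ) ≤ (ρ * (1 - ρ)) * (1 - z.re) :=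
    mul_le_mul h3 hκ (by linarith) (by nlinarith)
  nlinarith [sq_nonneg (κ * σ)]

/-- triangular families of residues -/
structure Tri (c : (ℕ → Bool) → ℕ → ZMod m) : Prop where
  zero : ∀ r, c r 0 = 1
  step : ∀ r h n, n ≤ 2 * h + 1 →
    c r n = c (tr h r) n + ∑ a ∈ Finset.Ioc h n, (if r a then -c r (n - a) else 0)

variable {c : (ℕ → Bool) → ℕ → ZMod m}

theorem Tri.low (H : Tri c) {r : ℕ → Bool} {h n : ℕ} (hn : n ≤ h) : c r n = c (tr h r) n := by
  have h1 := H.step r h n (by omega)
  rw [Finset.Ioc_eq_empty (by omega), Finset.sum_empty, add_zero] at h1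
  exact h1

theorem Tri.dep (H : Tri c) {r r' : ℕ → Bool} {n : ℕ} (h : ∀ a ≤ n, r a = r' a) :
    c r n = c r' n := by
  rw [H.low (le_refl n), H.low (r := r') (le_refl n), tr_congr h]

theorem Tri.top (H : Tri c) {r : ℕ → Bool} {n : ℕ} (hn : 1 ≤ n) :
    c r n = (if r n then -1 else 0) + c (tr (n - 1) r) n := by
  have h1 := H.step r (n - 1) n (by omega)
  have h2 : Finset.Ioc (n - 1) n = {n} := by
    ext x; simp only [Finset.mem_Ioc, Finset.mem_singleton]; omega
  rw [h2, Finset.sum_singleton, Nat.sub_self, H.zero] at h1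
  rw [h1, add_comm]

/-- linear functional -/
def fn (c : (ℕ → Bool) → ℕ → ZMod m) (v : ℕ → ZMod m) (u : ℕ) (r : ℕ → Bool) : ZMod m :=
  ∑ l ∈ Finset.range (u + 1), v l * c r l

/-- coefficient of the coordinate `a` -/
def X (c : (ℕ → Bool) → ℕ → ZMod m) (v : ℕ → ZMod m) (u a : ℕ) (r : ℕ → Bool) : ZMod m :=
  ∑ l ∈ Finset.Icc a u, v l * c r (l - a)

theorem Tri.fn_eq (H : Tri c) (v : ℕ → ZMod m) {u h : ℕ} (hu : u ≤ 2 * h + 1) (r : ℕ → Bool) :
    fn c v u r = fn c v u (tr h r) +
      ∑ a ∈ Finset.Ioc h u, (if r a then -X c v u a (tr h r) else 0) := by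
  have h1 : fn c v u r = ∑ l ∈ Finset.range (u + 1), (v l * c (tr h r) l +
      ∑ a ∈ Finset.Ioc h l, (if r a then -(v l * c (tr h r) (l - a)) else 0)) := by
    unfold fn
    refine Finset.sum_congr rfl fun l hl => ?_
    rw [Finset.mem_range] at hl
    rw [H.step r h l (by omega), mul_add, Finset.mul_sum]
    congr 1
    refine Finset.sum_congr rfl fun a ha => ?_
    rw [Finset.mem_Ioc] at ha
    rw [H.low (r := r) (h := h) (n := l - a) (by omega)]
    split_ifs
    · rw [mul_neg]
    · rw [mul_zero]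
  rw [h1, Finset.sum_add_distrib]
  congr 1
  unfold X
  rw [Finset.sum_sigma']
  have h2 : ∀ a ∈ Finset.Ioc h u, (if r a then -∑ l ∈ Finset.Icc a u, v l * c (tr h r) (l - a) else 0) =
      ∑ l ∈ Finset.Icc a u, (if r a then -(v l * c (tr h r) (l - a)) else 0) := by
    intro a _
    split_ifs
    · rw [Finset.sum_neg_distrib]
    · simp
  rw [Finset.sum_congr rfl h2, Finset.sum_sigma']
  refine Finset.sum_bij' (fun x _ => ⟨x.2, x.1⟩) (fun x _ => ⟨x.2, x.1⟩) ?_ ?_ ?_ ?_ ?_
  · rintro ⟨l, a⟩ hx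
    simp only [Finset.mem_sigma, Finset.mem_range, Finset.mem_Ioc, Finset.mem_Icc] at hx ⊢
    omega
  · rintro ⟨a, l⟩ hx
    simp only [Finset.mem_sigma, Finset.mem_range, Finset.mem_Ioc, Finset.mem_Icc] at hx ⊢
    omega
  · rintro ⟨l, a⟩ _; rfl
  · rintro ⟨a, l⟩ _; rfl
  · rintro ⟨l, a⟩ _; rfl

/-! ### Resampling -/

/-- dependence on the coordinates up to `N` -/
def Dep (N : ℕ) (f : (ℕ → Bool) → ℂ) : Prop := ∀ r r', (∀ a ≤ N, r a = r' a) → f r = f r'

variable {Ω : Type} [MeasurableSpace Ω] {P : Measure Ω} [IsProbabilityMeasure P]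
  {ξ : ℕ → Ω → Bool}

theorem Dep.mono {N M : ℕ} (h : N ≤ M) {f : (ℕ → Bool) → ℂ} (hf : Dep N f) : Dep M f :=
  fun r r' H => hf r r' fun a ha => H a (ha.trans h)

theorem Dep.factor {N : ℕ} {f : (ℕ → Bool) → ℂ} (hf : Dep N f) (S : Finset ℕ) (b : ℕ) (t : Bool)
    (hS : ∀ a ≤ N, a ≠ b → a ∈ S) (ω : ℕ → Bool) :
    f (Function.update ω b t) =
      (fun s : S → Bool => f (fun a => if a = b then t else if h : a ∈ S then s ⟨a, h⟩ else false))
        (fun i : S => ω i) := by
  refine hf _ _ fun a ha => ?_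
  by_cases hab : a = b
  · subst hab; simp
  · rw [Function.update_of_ne hab, if_neg hab, dif_pos (hS a ha hab)]

theorem Dep.measurable {N : ℕ} {f : (ℕ → Bool) → ℂ} (hf : Dep N f) (hm : ∀ a, Measurable (ξ a)) :
    Measurable fun ω => f (fun a => ξ a ω) := by
  have h1 : (fun ω => f (fun a => ξ a ω)) =
      (fun s : (Finset.range (N + 1)) → Bool =>
        f (fun a => if h : a ∈ Finset.range (N + 1) then s ⟨a, h⟩ else false)) ∘
      (fun ω (i : Finset.range (N + 1)) => ξ i ω) := by
    funext ω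
    refine hf _ _ fun a ha => ?_
    rw [dif_pos (Finset.mem_range.2 (by omega))]
  rw [h1]
  refine Measurable.comp (measurable_of_countable _) ?_
  exact measurable_pi_lambda _ fun i => hm i

theorem Dep.bdd {N : ℕ} {f : (ℕ → Bool) → ℂ} (hf : Dep N f) : ∃ C : ℝ, ∀ r, ‖f r‖ ≤ C := by
  classical
  let g : (Finset.range (N + 1) → Bool) → ℂ :=
    fun s => f (fun a => if h : a ∈ Finset.range (N + 1) then s ⟨a, h⟩ else false)
  refine ⟨∑ s, ‖g s‖, fun r => ?_⟩
  have h1 : f r = g (fun i => r i) := by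
    refine hf _ _ fun a ha => ?_
    rw [dif_pos (Finset.mem_range.2 (by omega))]
  rw [h1]
  have h2 := Finset.single_le_sum (s := Finset.univ) (f := fun s => ‖g s‖)
    (fun s _ => norm_nonneg (g s)) (Finset.mem_univ (fun i : Finset.range (N + 1) => r i))
  exact h2

theorem Dep.integrable {N : ℕ} {f : (ℕ → Bool) → ℂ} (hf : Dep N f) (hm : ∀ a, Measurable (ξ a)) :
    Integrable (fun ω => f (fun a => ξ a ω)) P := by
  obtain ⟨C, hC⟩ := hf.bdd
  exact Integrable.of_bound (hf.measurable hm).aestronglyMeasurable C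
    (Eventually.of_forall fun ω => hC _)

theorem Dep.update {N : ℕ} {f : (ℕ → Bool) → ℂ} (hf : Dep N f) (b : ℕ) (t : Bool) :
    Dep N (fun r => f (Function.update r b t)) := by
  intro r r' H
  refine hf _ _ fun a ha => ?_
  by_cases hab : a = b
  · subst hab; simp
  · rw [Function.update_of_ne hab, Function.update_of_ne hab, H a ha]

theorem resample (hm : ∀ a, Measurable (ξ a)) (hi : iIndepFun ξ P) {N : ℕ}
    {f : (ℕ → Bool) → ℂ} (hf : Dep N f) (b : ℕ) :
    ∫ ω, f (fun a => ξ a ω) ∂P = ∫ ω, ((rho P ξ b : ℂ) * f (Function.update (fun a => ξ a ω) b true) +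
      (1 - (rho P ξ b : ℂ)) * f (Function.update (fun a => ξ a ω) b false)) ∂P := by
  classical
  set S : Finset ℕ := (Finset.range (N + 1)).erase b with hS
  have hS1 : ∀ a ≤ N, a ≠ b → a ∈ S := fun a ha hab =>
    Finset.mem_erase.2 ⟨hab, Finset.mem_range.2 (by omega)⟩
  have hdisj : Disjoint S ({b} : Finset ℕ) := by
    rw [Finset.disjoint_singleton_right, hS]
    exact Finset.notMem_erase _ _
  have hind := hi.indepFun_finset S {b} hdisj hm
  have key : ∀ t : Bool, ∫ ω, (if ξ b ω = t then (1 : ℂ) else 0) *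
      f (Function.update (fun a => ξ a ω) b t) ∂P =
      (∫ ω, (if ξ b ω = t then (1 : ℂ) else 0) ∂P) *
        ∫ ω, f (Function.update (fun a => ξ a ω) b t) ∂P := by
    intro t
    have e1 : (fun ω => f (Function.update (fun a => ξ a ω) b t)) =
        (fun s : S → Bool => f (fun a => if a = b then t else if h : a ∈ S then s ⟨a, h⟩ else false))
          ∘ (fun ω (i : S) => ξ i ω) := by
      funext ω
      exact hf.factor S b t hS1 _
    have e2 : (fun ω => if ξ b ω = t then (1 : ℂ) else 0) =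
        (fun s : ({b} : Finset ℕ) → Bool => if s ⟨b, Finset.mem_singleton_self b⟩ = t then (1 : ℂ) else 0)
          ∘ (fun ω (i : ({b} : Finset ℕ)) => ξ i ω) := by
      funext ω; rfl
    have h3 : IndepFun (fun ω => if ξ b ω = t then (1 : ℂ) else 0)
        (fun ω => f (Function.update (fun a => ξ a ω) b t)) P := by
      rw [e1, e2]
      exact (hind.comp (measurable_of_countable _) (measurable_of_countable _)).symm
    exact h3.integral_fun_mul_eq_mul_integral
      (by
        refine Measurable.aestronglyMeasurable ?_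
        exact (measurable_of_countable (fun x : Bool => if x = t then (1 : ℂ) else 0)).comp (hm b))
      ((hf.update b t).measurable hm).aestronglyMeasurable
  have hsplit : ∀ ω, f (fun a => ξ a ω) =
      (if ξ b ω = true then (1 : ℂ) else 0) * f (Function.update (fun a => ξ a ω) b true) +
      (if ξ b ω = false then (1 : ℂ) else 0) * f (Function.update (fun a => ξ a ω) b false) := by
    intro ω
    have h1 : Function.update (fun a => ξ a ω) b (ξ b ω) = fun a => ξ a ω :=
      Function.update_eq_self b _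
    cases hb : ξ b ω
    · rw [hb] at h1
      simp [h1]
    · rw [hb] at h1
      simp [h1]
  have hintt : ∀ t : Bool, Integrable (fun ω => (if ξ b ω = t then (1 : ℂ) else 0) *
      f (Function.update (fun a => ξ a ω) b t)) P := by
    intro t
    obtain ⟨C, hC⟩ := hf.bdd
    refine Integrable.of_bound (Measurable.aestronglyMeasurable ?_) C
      (Eventually.of_forall fun ω => ?_)
    · exact ((measurable_of_countable (fun x : Bool => if x = t then (1 : ℂ) else 0)).comp (hm b)).mul
        ((hf.update b t).measurable hm)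
    · rw [norm_mul]
      have h2 := hC (Function.update (fun a => ξ a ω) b t)
      split_ifs
      · simpa using h2
      · simp only [norm_zero, zero_mul]
        exact (norm_nonneg _).trans h2
  have hp : ∀ t : Bool, ∫ ω, (if ξ b ω = t then (1 : ℂ) else 0) ∂P =
      ((P.real {ω | ξ b ω = t} : ℝ) : ℂ) := by
    intro t
    have h1 : (fun ω => if ξ b ω = t then (1 : ℂ) else 0) =
        Set.indicator {ω | ξ b ω = t} (fun _ => (1 : ℂ)) := by
      funext ω
      rw [Set.indicator_apply]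
      rfl
    have h2 : MeasurableSet {ω | ξ b ω = t} := hm b (measurableSet_singleton t)
    rw [h1, integral_indicator_const (1 : ℂ) h2, Complex.real_smul, mul_one]
  have hcompl : P.real {ω | ξ b ω = false} = 1 - rho P ξ b := by
    have h1 : {ω | ξ b ω = false} = {ω | ξ b ω = true}ᶜ := by
      ext ω; simp
    have h2 : MeasurableSet {ω | ξ b ω = true} := hm b (measurableSet_singleton true)
    rw [h1, probReal_compl_eq_one_sub h2]
    rfl
  rw [integral_congr_ae (Eventually.of_forall hsplit)]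
  rw [integral_add (hintt true) (hintt false), key true, key false, hp, hp, hcompl]
  rw [integral_add ((hf.update b true).integrable hm |>.const_mul _)
    ((hf.update b false).integrable hm |>.const_mul _), integral_const_mul, integral_const_mul]
  push_cast
  rfl

theorem Dep.mul {N : ℕ} {f g : (ℕ → Bool) → ℂ} (hf : Dep N f) (hg : Dep N g) :
    Dep N (fun r => f r * g r) := fun r r' H => by
  show f r * g r = f r' * g r'
  rw [hf r r' H, hg r r' H]

theorem Dep.prod {N : ℕ} {ι : Type} (s : Finset ι) {f : ι → (ℕ → Bool) → ℂ}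
    (hf : ∀ i ∈ s, Dep N (f i)) : Dep N (fun r => ∏ i ∈ s, f i r) := fun r r' H => by
  show ∏ i ∈ s, f i r = ∏ i ∈ s, f i r'
  exact Finset.prod_congr rfl fun i hi => hf i hi r r' H

theorem Dep.upd {N b : ℕ} {f : (ℕ → Bool) → ℂ} (hf : Dep N f) (hb : N < b) (r : ℕ → Bool)
    (t : Bool) : f (Function.update r b t) = f r :=
  hf _ _ fun a ha => Function.update_of_ne (by omega) _ _

theorem phase1 (hm : ∀ a, Measurable (ξ a)) (hi : iIndepFun ξ P) {h : ℕ}
    (g : ℕ → (ℕ → Bool) → ℂ) (hg : ∀ a, Dep h (g a)) (t : ℕ) (ht : h ≤ t) :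
    ∀ κ : (ℕ → Bool) → ℂ, Dep h κ →
    ∫ ω, (κ (fun a => ξ a ω) * ∏ a ∈ Finset.Ioc h t, (if ξ a ω then g a (fun a => ξ a ω) else 1)) ∂P =
    ∫ ω, (κ (fun a => ξ a ω) *
      ∏ a ∈ Finset.Ioc h t, ((rho P ξ a : ℂ) * g a (fun a => ξ a ω) + (1 - (rho P ξ a : ℂ)))) ∂P := by
  induction t, ht using Nat.le_induction with
  | base => intro κ _; simp
  | succ t ht ih =>
    intro κ hκ
    have hfac : ∀ a ∈ Finset.Ioc h t, Dep t (fun r : ℕ → Bool => if r a then g a r else 1) := by
      intro a ha r r' H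
      show (if r a then g a r else 1) = (if r' a then g a r' else 1)
      rw [Finset.mem_Ioc] at ha
      rw [H a ha.2, hg a r r' (fun a' ha' => H a' (ha'.trans ht))]
    have hpr := Dep.prod (N := t) (Finset.Ioc h t) hfac
    have hdep : Dep (t + 1) (fun r : ℕ → Bool =>
        κ r * ((∏ a ∈ Finset.Ioc h t, (if r a then g a r else 1)) *
          (if r (t + 1) then g (t + 1) r else 1))) := by
      refine (hκ.mono (by omega)).mul ((hpr.mono (by omega)).mul ?_)
      intro r r' H
      show (if r (t + 1) then g (t + 1) r else 1) = (if r' (t + 1) then g (t + 1) r' else 1)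
      rw [H (t + 1) le_rfl, hg (t + 1) r r' (fun a' ha' => H a' (by omega))]
    have h1 := resample hm hi hdep (t + 1)
    have e1 : ∀ ω, (κ (fun a => ξ a ω) *
        ∏ a ∈ Finset.Ioc h (t + 1), (if ξ a ω then g a (fun a => ξ a ω) else 1)) =
        (fun r : ℕ → Bool =>
        κ r * ((∏ a ∈ Finset.Ioc h t, (if r a then g a r else 1)) *
          (if r (t + 1) then g (t + 1) r else 1))) (fun a => ξ a ω) := by
      intro ω
      rw [Finset.prod_Ioc_succ_top (by omega)]
    rw [integral_congr_ae (Eventually.of_forall e1), h1]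
    have h2 := ih (fun r => κ r * ((rho P ξ (t + 1) : ℂ) * g (t + 1) r + (1 - (rho P ξ (t + 1) : ℂ))))
      (hκ.mul fun r r' H => by
        show (rho P ξ (t + 1) : ℂ) * g (t + 1) r + (1 - (rho P ξ (t + 1) : ℂ)) =
          (rho P ξ (t + 1) : ℂ) * g (t + 1) r' + (1 - (rho P ξ (t + 1) : ℂ))
        rw [hg (t + 1) r r' H])
    have e2 : ∀ ω, ((rho P ξ (t + 1) : ℂ) * (fun r : ℕ → Bool =>
        κ r * ((∏ a ∈ Finset.Ioc h t, (if r a then g a r else 1)) *
          (if r (t + 1) then g (t + 1) r else 1))) (Function.update (fun a => ξ a ω) (t + 1) true) +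
        (1 - (rho P ξ (t + 1) : ℂ)) * (fun r : ℕ → Bool =>
        κ r * ((∏ a ∈ Finset.Ioc h t, (if r a then g a r else 1)) *
          (if r (t + 1) then g (t + 1) r else 1))) (Function.update (fun a => ξ a ω) (t + 1) false)) =
        (fun r => κ r * ((rho P ξ (t + 1) : ℂ) * g (t + 1) r + (1 - (rho P ξ (t + 1) : ℂ))))
          (fun a => ξ a ω) *
          ∏ a ∈ Finset.Ioc h t, (if ξ a ω then g a (fun a => ξ a ω) else 1) := by
      intro ω
      simp only [Function.update_self]
      rw [hκ.upd (by omega), hκ.upd (by omega), (hg (t + 1)).upd (by omega),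
        hpr.upd (by omega), hpr.upd (by omega)]
      simp only [if_true, Bool.false_eq_true, if_false]
      ring
    rw [integral_congr_ae (Eventually.of_forall e2), h2]
    refine integral_congr_ae (Eventually.of_forall fun ω => ?_)
    beta_reduce
    rw [Finset.prod_Ioc_succ_top (by omega)]
    ring

end Pool.Agent.R978.PM
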