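import Pool.Agent.R978.PM.A

/-!
# Randomly deleted parts, residues modulo `m`: the bound for linear functionals (helper978)
-/

set_option autoImplicit false
set_option linter.unusedSectionVars false

open MeasureTheory ProbabilityTheory Filter Topology

namespace Pool.Agent.R978.PM

open Pool.Agent.R978.PD (tr tr_congr rho)

variable {m : ℕ} [NeZero m] {c : (ℕ → Bool) → ℕ → ZMod m}
variable {Ω : Type} [MeasurableSpace Ω] {P : Measure Ω} [IsProbabilityMeasure P]
  {ξ : ℕ → Ω → Bool}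

/-- weight -/
noncomputable def w (τ : ℝ) (x : ZMod m) : ℝ := if x = 0 then 1 else 1 - τ

theorem w_nonneg {τ : ℝ} (h : τ ≤ 1) (x : ZMod m) : 0 ≤ w τ x := by
  unfold w; split_ifs <;> linarith
theorem w_le_one {τ : ℝ} (h : 0 ≤ τ) (x : ZMod m) : w τ x ≤ 1 := by
  unfold w; split_ifs <;> linarith

theorem phase2 (hm : ∀ a, Measurable (ξ a)) (hi : iIndepFun ξ P) {b : ℕ}
    (y F : ℕ → (ℕ → Bool) → ZMod m) {z : ZMod m} (hz : z ≠ 0)
    (hy : ∀ j, 1 ≤ j → ∀ r : ℕ → Bool, y j r = (if r j then -z else 0) + F j r)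
    (hF : ∀ j, 1 ≤ j → ∀ r r' : ℕ → Bool, (∀ a ≤ j - 1, r a = r' a) → F j r = F j r')
    {σ τ : ℝ} (h0 : 0 ≤ σ) (h1 : σ ≤ 1 / 2) (t0 : 0 ≤ τ) (t1 : τ ≤ 1) (J : ℕ)
    (hρ : ∀ a, b < a → a ≤ J → σ ≤ rho P ξ a ∧ rho P ξ a ≤ 1 - σ) :
    ∫ ω, (∏ j ∈ Finset.Ioc b J, w τ (y j (fun a => ξ a ω))) ∂P ≤ (1 - σ * τ) ^ (J - b) := by
  induction J with
  | zero => simp
  | succ J ih =>
    rcases Nat.lt_or_ge J b with hJ | hJ
    · rw [Finset.Ioc_eq_empty (by omega), show J + 1 - b = 0 by omega]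
      simp
    have hyd : ∀ j, 1 ≤ j → PD.Dep j (fun r => w τ (y j r)) := by
      intro j hj r r' H
      show w τ (y j r) = w τ (y j r')
      rw [hy j hj, hy j hj, H j le_rfl, hF j hj r r' (fun a ha => H a (by omega))]
    have hpr : PD.Dep J (fun r => ∏ j ∈ Finset.Ioc b J, w τ (y j r)) :=
      PD.Dep.prod _ fun j hj => by
        rw [Finset.mem_Ioc] at hj
        exact (hyd j (by omega)).mono hj.2
    have hdep : PD.Dep (J + 1) (fun r => (∏ j ∈ Finset.Ioc b J, w τ (y j r)) * w τ (y (J + 1) r)) :=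
      (hpr.mono (by omega)).mul (hyd (J + 1) (by omega))
    have h2 := PD.resample hm hi hdep (J + 1)
    have e1 : ∀ ω, (∏ j ∈ Finset.Ioc b (J + 1), w τ (y j (fun a => ξ a ω))) =
        (fun r => (∏ j ∈ Finset.Ioc b J, w τ (y j r)) * w τ (y (J + 1) r)) (fun a => ξ a ω) := by
      intro ω
      rw [Finset.prod_Ioc_succ_top (by omega)]
    rw [integral_congr_ae (Eventually.of_forall e1), h2]
    have hFd : ∀ (r : ℕ → Bool) (t : Bool), F (J + 1) (Function.update r (J + 1) t) = F (J + 1) r :=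
      fun r t => hF (J + 1) (by omega) _ _ fun a ha => Function.update_of_ne (by omega) _ _
    have hle : ∀ ω, (rho P ξ (J + 1) * (fun r => (∏ j ∈ Finset.Ioc b J, w τ (y j r)) *
        w τ (y (J + 1) r)) (Function.update (fun a => ξ a ω) (J + 1) true) +
        (1 - rho P ξ (J + 1)) * (fun r => (∏ j ∈ Finset.Ioc b J, w τ (y j r)) *
        w τ (y (J + 1) r)) (Function.update (fun a => ξ a ω) (J + 1) false)) ≤
        (1 - σ * τ) * ∏ j ∈ Finset.Ioc b J, w τ (y j (fun a => ξ a ω)) := by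
      intro ω
      obtain ⟨p1, p2⟩ := hρ (J + 1) (by omega) le_rfl
      simp only
      rw [hpr.upd (by omega), hpr.upd (by omega), hy (J + 1) (by omega), hy (J + 1) (by omega),
        Function.update_self, Function.update_self, hFd, hFd]
      have hp0 : 0 ≤ ∏ j ∈ Finset.Ioc b J, w τ (y j (fun a => ξ a ω)) :=
        Finset.prod_nonneg fun j _ => w_nonneg t1 _
      have h3 : rho P ξ (J + 1) * w τ ((if (true : Bool) = true then -z else 0) +
          F (J + 1) (fun a => ξ a ω)) + (1 - rho P ξ (J + 1)) *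
          w τ ((if (false : Bool) = true then -z else 0) + F (J + 1) (fun a => ξ a ω)) ≤
          1 - σ * τ := by
        simp only [if_true, Bool.false_eq_true, if_false, zero_add]
        by_cases hF0 : F (J + 1) (fun a => ξ a ω) = 0
        · rw [hF0, add_zero]
          have hz' : -z ≠ 0 := neg_ne_zero.2 hz
          unfold w
          rw [if_neg hz', if_pos rfl]
          nlinarith
        · have hw : w τ (-z + F (J + 1) (fun a => ξ a ω)) ≤ 1 := w_le_one t0 _
          have hw2 : w τ (F (J + 1) (fun a => ξ a ω)) = 1 - τ := by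
            unfold w
            rw [if_neg hF0]
          rw [hw2]
          nlinarith [mul_le_mul_of_nonneg_left hw (h0.trans p1)]
      calc _ = (∏ j ∈ Finset.Ioc b J, w τ (y j (fun a => ξ a ω))) *
            (rho P ξ (J + 1) * w τ ((if (true : Bool) = true then -z else 0) +
          F (J + 1) (fun a => ξ a ω)) + (1 - rho P ξ (J + 1)) *
          w τ ((if (false : Bool) = true then -z else 0) + F (J + 1) (fun a => ξ a ω))) := by ring
        _ ≤ (∏ j ∈ Finset.Ioc b J, w τ (y j (fun a => ξ a ω))) * (1 - σ * τ) :=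
            mul_le_mul_of_nonneg_left h3 hp0
        _ = _ := by ring
    have hint : Integrable (fun ω => ∏ j ∈ Finset.Ioc b J, w τ (y j (fun a => ξ a ω))) P :=
      hpr.integrable hm
    have h4 := integral_mono
      (((hdep.update (J + 1) true).integrable (P := P) hm |>.const_mul (rho P ξ (J + 1))).add
        ((hdep.update (J + 1) false).integrable (P := P) hm |>.const_mul (1 - rho P ξ (J + 1))))
      (hint.const_mul (1 - σ * τ)) hle
    refine le_trans h4 ?_
    rw [integral_const_mul]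
    have h5 := ih fun a ha ha' => hρ a ha (by omega)
    have h6 : 0 ≤ 1 - σ * τ := by nlinarith
    calc (1 - σ * τ) * ∫ ω, (∏ j ∈ Finset.Ioc b J, w τ (y j (fun a => ξ a ω))) ∂P
        ≤ (1 - σ * τ) * (1 - σ * τ) ^ (J - b) := mul_le_mul_of_nonneg_left h5 h6
      _ = (1 - σ * τ) ^ (J + 1 - b) := by
          rw [← pow_succ', show J + 1 - b = J - b + 1 by omega]

theorem decorr (H : Tri c) (hm : ∀ a, Measurable (ξ a)) (hi : iIndepFun ξ P)
    {κ : ℝ} (hκ0 : 0 < κ) (hκ1 : κ ≤ 1) (hκ : ∀ x : ZMod m, x ≠ 0 → 2 * κ ≤ 1 - (e x).re)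
    (v : ℕ → ZMod m) (u : ℕ) (hv : v u ≠ 0) {b : ℕ} {σ : ℝ} (h0 : 0 ≤ σ) (h1 : σ ≤ 1 / 2)
    (hb : b ≤ u / 2) (hρ : ∀ a, b < a → a ≤ u → σ ≤ rho P ξ a ∧ rho P ξ a ≤ 1 - σ) :
    ‖∫ ω, e (fn c v u (fun a => ξ a ω)) ∂P‖ ≤ (1 - κ * σ ^ 2) ^ (u - u / 2 - 1 - b) := by
  classical
  obtain ⟨h, hh⟩ : ∃ h, h = u / 2 := ⟨_, rfl⟩
  rw [← hh] at hb ⊢
  have huh : u ≤ 2 * h + 1 := by omega
  have t0 : 0 ≤ κ * σ := by positivity
  have t1 : κ * σ ≤ 1 := by nlinarith
  -- expansion
  have e1 : ∀ ω, e (fn c v u (fun a => ξ a ω)) = e (fn c v u (tr h (fun a => ξ a ω))) *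
      ∏ a ∈ Finset.Ioc h u, (if ξ a ω then e (-X c v u a (tr h (fun a => ξ a ω))) else 1) := by
    intro ω
    rw [H.fn_eq v huh, e_add, e_sum]
    congr 1
    refine Finset.prod_congr rfl fun a _ => ?_
    split_ifs
    · rfl
    · exact e_zero
  have hgd : ∀ a, Dep h (fun r => e (-X c v u a (tr h r))) := by
    intro a r r' Hr
    show e (-X c v u a (tr h r)) = e (-X c v u a (tr h r'))
    rw [tr_congr Hr]
  have hκd : Dep h (fun r => e (fn c v u (tr h r))) := by
    intro r r' Hr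
    show e (fn c v u (tr h r)) = e (fn c v u (tr h r'))
    rw [tr_congr Hr]
  rw [integral_congr_ae (Eventually.of_forall e1)]
  have h2 := phase1 hm hi (fun a r => e (-X c v u a (tr h r))) hgd u (by omega)
    (fun r => e (fn c v u (tr h r))) hκd
  rw [h2]
  -- the functionals y
  set y : ℕ → (ℕ → Bool) → ZMod m := fun j r => X c v u (u - j) r with hydef
  have hX : ∀ a, h < a → ∀ r, X c v u a (tr h r) = X c v u a r := by
    intro a ha r
    unfold X
    refine Finset.sum_congr rfl fun l hl => ?_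
    rw [Finset.mem_Icc] at hl
    rw [← H.low (by omega)]
  -- pointwise bound
  have hpt : ∀ ω, ‖e (fn c v u (tr h (fun a => ξ a ω))) *
      ∏ a ∈ Finset.Ioc h u, ((rho P ξ a : ℂ) * e (-X c v u a (tr h (fun a => ξ a ω))) +
        (1 - (rho P ξ a : ℂ)))‖ ≤ ∏ j ∈ Finset.Ioc b (u - h - 1), w (κ * σ) (y j (fun a => ξ a ω)) := by
    intro ω
    rw [norm_mul, norm_e, one_mul, norm_prod]
    have s1 : ∏ a ∈ Finset.Ioc h u, ‖(rho P ξ a : ℂ) * e (-X c v u a (tr h (fun a => ξ a ω))) +
        (1 - (rho P ξ a : ℂ))‖ ≤ ∏ a ∈ Finset.Ioc h u, w (κ * σ) (X c v u a (fun a => ξ a ω)) := by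
      refine Finset.prod_le_prod (fun a _ => norm_nonneg _) fun a ha => ?_
      rw [Finset.mem_Ioc] at ha
      rw [hX a ha.1]
      obtain ⟨p1, p2⟩ := hρ a (by omega) ha.2
      by_cases hz : X c v u a (fun a => ξ a ω) = 0
      · rw [hz, neg_zero, e_zero]
        unfold w
        rw [if_pos rfl, show (rho P ξ a : ℂ) * 1 + (1 - (rho P ξ a : ℂ)) = 1 by ring, norm_one]
      · have hz' : -X c v u a (fun a => ξ a ω) ≠ 0 := neg_ne_zero.2 hz
        have h3 := lin_bound (norm_e (-X c v u a (fun a => ξ a ω))) hκ0.le hκ1 (hκ _ hz') h0 h1 p1 p2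
        unfold w
        rw [if_neg hz]
        exact h3
    refine s1.trans ?_
    have hsub : (Finset.Ioc b (u - h - 1)).image (fun j => u - j) ⊆ Finset.Ioc h u := by
      intro a ha
      rw [Finset.mem_image] at ha
      obtain ⟨j, hj, rfl⟩ := ha
      rw [Finset.mem_Ioc] at hj ⊢
      omega
    rw [← Finset.prod_sdiff hsub]
    have s2 : ∏ a ∈ Finset.Ioc h u \ (Finset.Ioc b (u - h - 1)).image (fun j => u - j),
        w (κ * σ) (X c v u a (fun a => ξ a ω)) ≤ 1 :=
      Finset.prod_le_one (fun a _ => w_nonneg t1 _) fun a _ => w_le_one t0 _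
    have s3 : ∏ a ∈ (Finset.Ioc b (u - h - 1)).image (fun j => u - j),
        w (κ * σ) (X c v u a (fun a => ξ a ω)) =
        ∏ j ∈ Finset.Ioc b (u - h - 1), w (κ * σ) (y j (fun a => ξ a ω)) := by
      rw [Finset.prod_image]
      intro i hi j hj hij
      simp only [Finset.coe_Ioc, Set.mem_Ioc] at hi hj
      simp only at hij
      omega
    rw [s3]
    exact mul_le_of_le_one_left (Finset.prod_nonneg fun j _ => w_nonneg t1 _) s2
  have hyF : ∀ j, 1 ≤ j → j ≤ u → ∀ r : ℕ → Bool, y j r = (if r j then -v u else 0) +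
      (v u * c (tr (j - 1) r) j + ∑ l ∈ Finset.Ico (u - j) u, v l * c r (l - (u - j))) := by
    intro j hj hju r
    show ∑ l ∈ Finset.Icc (u - j) u, v l * c r (l - (u - j)) = _
    rw [← Finset.Ico_insert_right (show u - j ≤ u by omega), Finset.sum_insert (by simp),
      show u - (u - j) = j by omega, H.top hj]
    split_ifs <;> ring
  -- apply phase 2 with a truncated family
  set y' : ℕ → (ℕ → Bool) → ZMod m := fun j r => if j ≤ u then y j r else
    (if r j then -v u else 0) with hy'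
  set F : ℕ → (ℕ → Bool) → ZMod m := fun j r => if j ≤ u then
    (v u * c (tr (j - 1) r) j + ∑ l ∈ Finset.Ico (u - j) u, v l * c r (l - (u - j))) else 0 with hFdef
  have p2 := phase2 (P := P) hm hi (b := b) y' F hv
    (by
      intro j hj r
      simp only [hy', hFdef]
      by_cases hju : j ≤ u
      · rw [if_pos hju, if_pos hju, hyF j hj hju]
      · rw [if_neg hju, if_neg hju, add_zero])
    (by
      intro j hj r r' Hr
      simp only [hFdef]
      by_cases hju : j ≤ u
      · rw [if_pos hju, if_pos hju, tr_congr Hr]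
        congr 1
        refine Finset.sum_congr rfl fun l hl => ?_
        rw [Finset.mem_Ico] at hl
        rw [H.dep (r := r) (r' := r') (n := l - (u - j)) (fun a ha => Hr a (by omega))]
      · rw [if_neg hju, if_neg hju])
    h0 h1 t0 t1 (u - h - 1) (fun a ha ha' => hρ a ha (by omega))
  rw [show σ * (κ * σ) = κ * σ ^ 2 by ring] at p2
  have e3 : ∀ ω, ∏ j ∈ Finset.Ioc b (u - h - 1), w (κ * σ) (y' j (fun a => ξ a ω)) =
      ∏ j ∈ Finset.Ioc b (u - h - 1), w (κ * σ) (y j (fun a => ξ a ω)) := by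
    intro ω
    refine Finset.prod_congr rfl fun j hj => ?_
    rw [Finset.mem_Ioc] at hj
    simp only [hy']
    rw [if_pos (by omega)]
  rw [integral_congr_ae (Eventually.of_forall e3)] at p2
  refine le_trans (norm_integral_le_integral_norm _) (le_trans ?_ p2)
  refine integral_mono_of_nonneg (Eventually.of_forall fun ω => norm_nonneg _) ?_
    (Eventually.of_forall hpt)
  have hdy : PD.Dep u (fun r => ∏ j ∈ Finset.Ioc b (u - h - 1), w (κ * σ) (y j r)) :=
    PD.Dep.prod _ fun j hj r r' Hr => by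
      show w (κ * σ) (y j r) = w (κ * σ) (y j r')
      simp only [hydef, X]
      congr 1
      refine Finset.sum_congr rfl fun l hl => ?_
      rw [Finset.mem_Icc] at hl
      rw [H.dep (r := r) (r' := r') (n := l - (u - j)) (fun a ha => Hr a (by omega))]
  exact hdy.integrable hm

end Pool.Agent.R978.PM
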