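import Pool.Agent.R978.PM.B

/-!
# Randomly deleted parts, residues modulo `m`: frequencies of patterns (helper978)
-/

set_option autoImplicit false
set_option linter.unusedSectionVars false

open MeasureTheory ProbabilityTheory Filter Topology

namespace Pool.Agent.R978.PM

open Pool.Agent.R978.PD (tr tr_congr rho)

variable {m : ℕ} [NeZero m] {c : (ℕ → Bool) → ℕ → ZMod m}
variable {Ω : Type} [MeasurableSpace Ω] {P : Measure Ω} [IsProbabilityMeasure P]
  {ξ : ℕ → Ω → Bool}

/-- the hypothesis on the probabilities -/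
def Spread (P : Measure Ω) (ξ : ℕ → Ω → Bool) (K : ℝ) (b : ℕ) : Prop :=
  ∀ a, b < a → K * √(Real.log a / a) ≤ rho P ξ a ∧ rho P ξ a ≤ 1 - K * √(Real.log a / a)

theorem chi_bound (H : Tri c) (hm : ∀ a, Measurable (ξ a)) (hi : iIndepFun ξ P) {b : ℕ}
    {κ : ℝ} (hκ0 : 0 < κ) (hκ1 : κ ≤ 1) (hκ : ∀ x : ZMod m, x ≠ 0 → 2 * κ ≤ 1 - (e x).re)
    {K : ℝ} (hK0 : 0 ≤ K) (hK : κ * K ^ 2 = 2)
    (hb3 : 3 ≤ b) (hs : Spread P ξ K b) (v : ℕ → ZMod m) (u : ℕ) (hu : 1 ≤ u) (hv : v u ≠ 0) :
    ‖∫ ω, e (fn c v u (fun a => ξ a ω)) ∂P‖ ≤ Real.exp (2 * (1 + b)) / u := by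
  have hu0 : (0 : ℝ) < u := by exact_mod_cast hu
  have htriv : ‖∫ ω, e (fn c v u (fun a => ξ a ω)) ∂P‖ ≤ 1 := by
    refine (norm_integral_le_integral_norm _).trans ?_
    simp only [norm_e]
    simp
  rcases Nat.lt_or_ge u (2 * b) with hub | hub
  · refine htriv.trans ?_
    rw [le_div_iff₀ hu0, one_mul]
    have h1 : (u : ℝ) < 2 * b := by exact_mod_cast hub
    have h2 := Real.add_one_le_exp (2 * (1 + (b : ℝ)))
    linarith
  have hub' : b < u := by omega
  obtain ⟨x, hx⟩ : ∃ x : ℝ, x = Real.log u / u := ⟨_, rfl⟩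
  have hx0 : 0 ≤ x := by
    rw [hx]
    exact div_nonneg (Real.log_natCast_nonneg u) hu0.le
  have hx1 : x ≤ 1 := by
    rw [hx, div_le_one hu0]
    exact (Real.log_le_sub_one_of_pos hu0).trans (by linarith)
  have hσ := hs u hub'
  rw [← hx] at hσ
  have hσ0 : 0 ≤ K * √x := by positivity
  have hσ1 : K * √x ≤ 1 / 2 := by linarith [hσ.1, hσ.2]
  have hmon : ∀ a, b < a → a ≤ u → K * √x ≤ rho P ξ a ∧ rho P ξ a ≤ 1 - K * √x := by
    intro a ha hau
    have h1 : x ≤ Real.log a / a := by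
      rw [hx]
      have h2 : Real.exp 1 ≤ (a : ℝ) := by
        have h3 := Real.exp_one_lt_d9
        have h4 : (4 : ℝ) ≤ a := by exact_mod_cast (by omega : 4 ≤ a)
        linarith
      exact Real.log_div_self_antitoneOn h2 (h2.trans (by exact_mod_cast hau)) (by exact_mod_cast hau)
    have h5 := mul_le_mul_of_nonneg_left (Real.sqrt_le_sqrt h1) hK0
    have h6 := hs a ha
    constructor <;> linarith [h6.1, h6.2]
  have h1 := decorr H hm hi hκ0 hκ1 hκ v u hv hσ0 hσ1 (by omega : b ≤ u / 2) hmon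
  have hκσ : κ * (K * √x) ^ 2 = 2 * x := by
    rw [mul_pow, Real.sq_sqrt hx0, ← mul_assoc, hK]
  rw [hκσ] at h1
  refine h1.trans ?_
  have h2 : 0 ≤ 1 - 2 * x := by
    rw [← hκσ]
    nlinarith
  have h3 : 1 - 2 * x ≤ Real.exp (-(2 * x)) := by
    have := Real.add_one_le_exp (-(2 * x))
    linarith
  have h4 : (1 - 2 * x) ^ (u - u / 2 - 1 - b) ≤
      Real.exp (-(2 * x) * ((u - u / 2 - 1 - b : ℕ) : ℝ)) := by
    rw [mul_comm (-(2 * x)) (((u - u / 2 - 1 - b : ℕ) : ℝ)), Real.exp_nat_mul]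
    exact pow_le_pow_left₀ h2 h3 _
  refine h4.trans ?_
  have h5 : (u : ℝ) / 2 - 1 - b ≤ ((u - u / 2 - 1 - b : ℕ) : ℝ) := by
    have h6 : u ≤ 2 * (u - u / 2 - 1 - b) + 2 + 2 * b := by omega
    have h7 : (u : ℝ) ≤ 2 * ((u - u / 2 - 1 - b : ℕ) : ℝ) + 2 + 2 * b := by exact_mod_cast h6
    linarith
  have h6 : Real.exp (2 * (1 + b)) / u = Real.exp (2 * (1 + b) - Real.log u) := by
    rw [Real.exp_sub, Real.exp_log hu0]
  rw [h6, Real.exp_le_exp]
  have h7 : x * u = Real.log u := by
    rw [hx]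
    field_simp
  have hb0 : (0 : ℝ) ≤ b := Nat.cast_nonneg b
  nlinarith [mul_le_mul_of_nonneg_left h5 hx0, mul_le_mul_of_nonneg_right hx1 hb0]

/-! ### pair correlations -/

/-- the coefficients of a translate -/
def vv {L : ℕ} (s : ℕ) (t : Fin L → ZMod m) (l : ℕ) : ZMod m :=
  ∑ i : Fin L, if l = s + i then t i else 0

theorem sum_vv {L : ℕ} (s : ℕ) (t : Fin L → ZMod m) (u : ℕ) (hu : ∀ i, t i ≠ 0 → s + i ≤ u)
    (f : ℕ → ZMod m) :
    ∑ l ∈ Finset.range (u + 1), vv s t l * f l = ∑ i : Fin L, t i * f (s + i) := by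
  unfold vv
  simp only [Finset.sum_mul, ite_mul, zero_mul]
  rw [Finset.sum_comm]
  refine Finset.sum_congr rfl fun i _ => ?_
  rw [Finset.sum_ite_eq']
  by_cases hi : t i = 0
  · rw [hi]; simp
  · rw [if_pos (Finset.mem_range.2 (by have := hu i hi; omega))]

/-- the linear form of a pattern -/
def Z {L : ℕ} (c : (ℕ → Bool) → ℕ → ZMod m) (s : ℕ) (θ : ZMod m) (t : Fin L → ZMod m)
    (r : ℕ → Bool) : ZMod m := θ + ∑ i : Fin L, t i * c r (s + i)

theorem Z_dep (H : Tri c) {L : ℕ} (s : ℕ) (θ : ZMod m) (t : Fin L → ZMod m) {r r' : ℕ → Bool}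
    (h : ∀ a ≤ s + L, r a = r' a) : Z c s θ t r = Z c s θ t r' := by
  unfold Z
  congr 1
  refine Finset.sum_congr rfl fun i _ => ?_
  rw [H.dep (r := r) (r' := r') fun a ha => h a (by omega)]

theorem Z_sub {L : ℕ} {s s' : ℕ} (hs : s < s') (θ : ZMod m) (t : Fin L → ZMod m) (ht : t ≠ 0) :
    ∃ (v : ℕ → ZMod m) (u : ℕ), s' ≤ u ∧ v u ≠ 0 ∧
      ∀ r, e (Z c s θ t r) * (starRingEnd ℂ) (e (Z c s' θ t r)) = e (fn c v u r) := by
  classical
  have hne : (Finset.univ.filter fun i : Fin L => t i ≠ 0).Nonempty := by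
    by_contra hc
    rw [Finset.not_nonempty_iff_eq_empty, Finset.filter_eq_empty_iff] at hc
    apply ht
    funext i
    have := hc (Finset.mem_univ i)
    push Not at this
    exact this
  obtain ⟨τ, hτ⟩ : ∃ τ, τ = (Finset.univ.filter fun i : Fin L => t i ≠ 0).max' hne := ⟨_, rfl⟩
  have hτT : t τ ≠ 0 := by
    have := Finset.max'_mem _ hne
    rw [← hτ] at this
    exact (Finset.mem_filter.1 this).2
  have hmax : ∀ i, t i ≠ 0 → i ≤ τ := fun i hi => by
    rw [hτ]
    exact Finset.le_max' _ i (Finset.mem_filter.2 ⟨Finset.mem_univ i, hi⟩)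
  have hmax' : ∀ i : Fin L, t i ≠ 0 → (i : ℕ) ≤ τ := fun i hi => hmax i hi
  refine ⟨fun l => vv s t l - vv s' t l, s' + τ, by omega, ?_, fun r => ?_⟩
  · show vv s t (s' + τ) - vv s' t (s' + τ) ≠ 0
    have h1 : vv s t (s' + τ) = 0 := by
      unfold vv
      refine Finset.sum_eq_zero fun i _ => ?_
      by_cases hi : t i = 0
      · rw [hi]; simp
      · rw [if_neg]
        have := hmax' i hi
        omega
    have h2 : vv s' t (s' + τ) = t τ := by
      unfold vv
      rw [Finset.sum_eq_single τ]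
      · rw [if_pos rfl]
      · intro i _ hi
        rw [if_neg]
        intro h
        apply hi
        apply Fin.ext
        omega
      · intro h
        exact absurd (Finset.mem_univ τ) h
    rw [h1, h2, zero_sub]
    exact neg_ne_zero.2 hτT
  · rw [← e_neg, ← e_add]
    congr 1
    unfold Z fn
    simp only [sub_mul]
    rw [Finset.sum_sub_distrib, sum_vv s t (s' + τ) (fun i hi => by have := hmax' i hi; omega),
      sum_vv s' t (s' + τ) (fun i hi => by have := hmax' i hi; omega)]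
    ring

theorem eZ_dep (H : Tri c) {L : ℕ} (s : ℕ) (θ : ZMod m) (t : Fin L → ZMod m) :
    Dep (s + L) (fun r => e (Z c s θ t r)) := fun r r' h => by
  show e (Z c s θ t r) = e (Z c s θ t r')
  rw [Z_dep H s θ t h]

theorem eZ_meas (H : Tri c) (hm : ∀ a, Measurable (ξ a)) {L : ℕ} (s : ℕ) (θ : ZMod m)
    (t : Fin L → ZMod m) : Measurable fun ω => e (Z c s θ t (fun a => ξ a ω)) :=
  (eZ_dep H s θ t).measurable hm

theorem second_moment (H : Tri c) (hm : ∀ a, Measurable (ξ a)) (hi : iIndepFun ξ P) {b : ℕ}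
    {κ : ℝ} (hκ0 : 0 < κ) (hκ1 : κ ≤ 1) (hκ : ∀ x : ZMod m, x ≠ 0 → 2 * κ ≤ 1 - (e x).re)
    {K : ℝ} (hK0 : 0 ≤ K) (hK : κ * K ^ 2 = 2)
    (hb3 : 3 ≤ b) (hs : Spread P ξ K b) {s : ℕ → ℕ} (hs' : StrictMono s) {L : ℕ} (θ : ZMod m)
    (t : Fin L → ZMod m) (ht : t ≠ 0) (x : ℕ) :
    ∫ ω, Complex.normSq (∑ k ∈ Finset.range x, e (Z c (s k) θ t (fun a => ξ a ω))) ∂P ≤
      (2 * Real.exp (2 * (1 + b)) + 1) * x := by
  have hYm : ∀ k, Measurable fun ω => e (Z c (s k) θ t (fun a => ξ a ω)) := fun k =>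
    eZ_meas H hm _ _ _
  have hSm : ∀ x : ℕ, Measurable fun ω => ∑ k ∈ Finset.range x, e (Z c (s k) θ t (fun a => ξ a ω)) :=
    fun x => Finset.measurable_sum _ fun k _ => hYm k
  have hSb : ∀ (N : ℕ) (ω : Ω), ‖∑ k ∈ Finset.range N, e (Z c (s k) θ t (fun a => ξ a ω))‖ ≤ N := by
    intro N ω
    refine (norm_sum_le _ _).trans ((Finset.sum_le_sum fun k _ => (norm_e _).le).trans ?_)
    simp
  induction x with
  | zero => simp
  | succ x ih =>
    have e1 : ∀ ω, Complex.normSq (∑ k ∈ Finset.range (x + 1), e (Z c (s k) θ t (fun a => ξ a ω))) =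
        Complex.normSq (∑ k ∈ Finset.range x, e (Z c (s k) θ t (fun a => ξ a ω))) +
        RCLike.re (2 * ∑ k ∈ Finset.range x, e (Z c (s k) θ t (fun a => ξ a ω)) *
          (starRingEnd ℂ) (e (Z c (s x) θ t (fun a => ξ a ω)))) + 1 := by
      intro ω
      rw [Finset.sum_range_succ, ← Finset.sum_mul, Complex.normSq_add]
      have h1 : Complex.normSq (e (Z c (s x) θ t (fun a => ξ a ω))) = 1 := by
        rw [Complex.normSq_eq_norm_sq, norm_e]; norm_num
      rw [h1]
      have h2 : ∀ z : ℂ, RCLike.re (2 * z) = 2 * z.re := by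
        intro z
        rw [RCLike.re_eq_complex_re]
        simp
      rw [h2]
      ring
    rw [integral_congr_ae (Eventually.of_forall e1)]
    have i1 : Integrable (fun ω => Complex.normSq
        (∑ k ∈ Finset.range x, e (Z c (s k) θ t (fun a => ξ a ω)))) P := by
      refine Integrable.of_bound (Complex.continuous_normSq.measurable.comp (hSm x)).aestronglyMeasurable ((x : ℝ) ^ 2)
        (Eventually.of_forall fun ω => ?_)
      rw [Real.norm_of_nonneg (Complex.normSq_nonneg _), Complex.normSq_eq_norm_sq]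
      exact pow_le_pow_left₀ (norm_nonneg _) (hSb x ω) 2
    have i2' : ∀ k, Integrable (fun ω => e (Z c (s k) θ t (fun a => ξ a ω)) *
        (starRingEnd ℂ) (e (Z c (s x) θ t (fun a => ξ a ω)))) P := by
      intro k
      refine Integrable.of_bound ((hYm k).mul
        (Complex.continuous_conj.measurable.comp (hYm x))).aestronglyMeasurable 1
        (Eventually.of_forall fun ω => ?_)
      rw [norm_mul, norm_e, RCLike.norm_conj, norm_e, one_mul]
    have i2 : Integrable (fun ω => 2 * ∑ k ∈ Finset.range x, e (Z c (s k) θ t (fun a => ξ a ω)) *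
        (starRingEnd ℂ) (e (Z c (s x) θ t (fun a => ξ a ω)))) P :=
      (integrable_finset_sum _ fun k _ => i2' k).const_mul 2
    have i2r : Integrable (fun ω => RCLike.re (2 * ∑ k ∈ Finset.range x,
        e (Z c (s k) θ t (fun a => ξ a ω)) *
        (starRingEnd ℂ) (e (Z c (s x) θ t (fun a => ξ a ω))))) P := i2.re
    have i12 : Integrable (fun ω => Complex.normSq
        (∑ k ∈ Finset.range x, e (Z c (s k) θ t (fun a => ξ a ω))) +
        RCLike.re (2 * ∑ k ∈ Finset.range x, e (Z c (s k) θ t (fun a => ξ a ω)) *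
          (starRingEnd ℂ) (e (Z c (s x) θ t (fun a => ξ a ω))))) P := i1.add i2r
    rw [integral_add i12 (integrable_const _), integral_add i1 i2r, integral_re i2]
    have h3 : RCLike.re (∫ ω, (2 * ∑ k ∈ Finset.range x, e (Z c (s k) θ t (fun a => ξ a ω)) *
        (starRingEnd ℂ) (e (Z c (s x) θ t (fun a => ξ a ω)))) ∂P) ≤ 2 * Real.exp (2 * (1 + b)) := by
      rw [integral_const_mul, integral_finset_sum _ (fun k _ => i2' k)]
      refine (RCLike.re_le_norm _).trans ?_
      rw [norm_mul, Complex.norm_two]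
      refine mul_le_mul_of_nonneg_left ?_ (by norm_num)
      rcases Nat.eq_zero_or_pos x with rfl | hx
      · simp only [Finset.range_zero, Finset.sum_empty, norm_zero]
        positivity
      · have h4 : ∀ k ∈ Finset.range x, ‖∫ ω, e (Z c (s k) θ t (fun a => ξ a ω)) *
            (starRingEnd ℂ) (e (Z c (s x) θ t (fun a => ξ a ω))) ∂P‖ ≤
            Real.exp (2 * (1 + b)) / x := by
          intro k hk
          rw [Finset.mem_range] at hk
          obtain ⟨v, u, hu, hv, hr⟩ := Z_sub (c := c) (hs' hk) θ t ht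
          have hxu : x ≤ u := (hs'.id_le x).trans hu
          have h5 := chi_bound H hm hi hκ0 hκ1 hκ hK0 hK hb3 hs v u (by omega) hv
          rw [integral_congr_ae (Eventually.of_forall fun ω => hr (fun a => ξ a ω))]
          refine h5.trans ?_
          apply div_le_div_of_nonneg_left (Real.exp_pos _).le (by exact_mod_cast hx)
          exact_mod_cast hxu
        refine (norm_sum_le _ _).trans ((Finset.sum_le_sum h4).trans (le_of_eq ?_))
        rw [Finset.sum_const, Finset.card_range, nsmul_eq_mul]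
        have : (x : ℝ) ≠ 0 := by
          have : (0 : ℝ) < x := by exact_mod_cast hx
          exact this.ne'
        field_simp
    simp only [integral_const, probReal_univ, smul_eq_mul, mul_one]
    push_cast
    linarith

theorem signs (H : Tri c) (hm : ∀ a, Measurable (ξ a)) (hi : iIndepFun ξ P)
    (hs : ∀ K : ℝ, ∃ b : ℕ, Spread P ξ K b) {s : ℕ → ℕ} (hs' : StrictMono s) (L : ℕ) :
    ∀ᵐ ω ∂P, ∀ (t : Fin L → ZMod m) (θ : ZMod m), t ≠ 0 →
      Tendsto (fun x : ℕ => (∑ k ∈ Finset.range x,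
        (e (Z c (s k) θ t (fun a => ξ a ω))).re) / x) atTop (𝓝 0) := by
  obtain ⟨κ, hκ0, hκ1, hκ⟩ := gap m
  obtain ⟨b, hb⟩ := hs (√(2 / κ))
  have hK : κ * √(2 / κ) ^ 2 = 2 := by
    rw [Real.sq_sqrt (by positivity)]
    field_simp
  rw [ae_all_iff]
  intro t
  rw [ae_all_iff]
  intro θ
  by_cases ht : t ≠ 0
  · have hs3 : Spread P ξ (√(2 / κ)) (max b 3) := fun a ha =>
      hb a (lt_of_le_of_lt (le_max_left _ _) ha)
    have h1 := PD.slln_sq (P := P) (Y := fun k ω => (e (Z c (s k) θ t (fun a => ξ a ω))).re)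
      (C := 2 * Real.exp (2 * (1 + (max b 3 : ℕ))) + 1)
      (fun k => Complex.measurable_re.comp (eZ_meas H hm _ _ _))
      (fun k ω => (Complex.abs_re_le_norm _).trans (norm_e _).le) (by positivity)
      (fun x => by
        refine le_trans ?_ (second_moment H hm hi hκ0 hκ1 hκ (Real.sqrt_nonneg _) hK
          (le_max_right b 3) hs3 hs' θ t ht x)
        refine integral_mono_of_nonneg (Eventually.of_forall fun ω => by positivity) ?_
          (Eventually.of_forall fun ω => ?_)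
        · have hSm : Measurable fun ω => ∑ k ∈ Finset.range x, e (Z c (s k) θ t (fun a => ξ a ω)) :=
            Finset.measurable_sum _ fun k _ => eZ_meas H hm _ _ _
          refine Integrable.of_bound (Complex.continuous_normSq.measurable.comp hSm).aestronglyMeasurable
            ((x : ℝ) ^ 2) (Eventually.of_forall fun ω => ?_)
          rw [Real.norm_of_nonneg (Complex.normSq_nonneg _), Complex.normSq_eq_norm_sq]
          refine pow_le_pow_left₀ (norm_nonneg _) ?_ 2
          refine (norm_sum_le _ _).trans ((Finset.sum_le_sum fun k _ => (norm_e _).le).trans ?_)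
          simp
        · show (∑ k ∈ Finset.range x, (e (Z c (s k) θ t (fun a => ξ a ω))).re) ^ 2 ≤
            Complex.normSq (∑ k ∈ Finset.range x, e (Z c (s k) θ t (fun a => ξ a ω)))
          rw [← Complex.re_sum, Complex.normSq_apply]
          nlinarith [mul_self_nonneg (∑ k ∈ Finset.range x, e (Z c (s k) θ t (fun a => ξ a ω))).im])
    filter_upwards [h1] with ω hω _
    exact hω
  · exact Eventually.of_forall fun ω h => absurd h ht

theorem orth {L : ℕ} (x : Fin L → ZMod m) :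
    ∑ t : Fin L → ZMod m, e (∑ i, t i * x i) = if ∀ i, x i = 0 then (m : ℂ) ^ L else 0 := by
  classical
  have h1 : ∀ t : Fin L → ZMod m, e (∑ i, t i * x i) = ∏ i, e (t i * x i) := fun t =>
    e_sum _ _
  simp only [h1]
  have h2 := (Finset.prod_univ_sum (fun _ : Fin L => (Finset.univ : Finset (ZMod m)))
    (fun i a => e (a * x i))).symm
  rw [Fintype.piFinset_univ] at h2
  rw [h2]
  have h3 : ∀ i : Fin L, ∑ a : ZMod m, e (a * x i) = if x i = 0 then (m : ℂ) else 0 := by
    intro i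
    have := AddChar.sum_mulShift (x i) (ZMod.isPrimitive_stdAddChar m)
    rw [ZMod.card] at this
    unfold e
    rw [this]
    split_ifs <;> simp
  simp only [h3]
  by_cases hall : ∀ i, x i = 0
  · rw [if_pos hall]
    have : ∀ i : Fin L, (if x i = 0 then (m : ℂ) else 0) = m := fun i => if_pos (hall i)
    simp only [this]
    simp
  · rw [if_neg hall]
    push Not at hall
    obtain ⟨i, hi⟩ := hall
    exact Finset.prod_eq_zero (Finset.mem_univ i) (if_neg hi)

theorem indicator_eq (r : ℕ → Bool) (s L : ℕ) (wd : Fin L → ZMod m) :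
    (if ∀ i : Fin L, c r (s + i) = wd i then (1 : ℝ) else 0) =
      (1 / m) ^ L * ∑ t : Fin L → ZMod m, (e (Z c s (-∑ i, t i * wd i) t r)).re := by
  have h1 := orth (m := m) (fun i : Fin L => c r (s + i) - wd i)
  have h2 : ∀ t : Fin L → ZMod m, Z c s (-∑ i, t i * wd i) t r =
      ∑ i, t i * (c r (s + i) - wd i) := by
    intro t
    unfold Z
    simp only [mul_sub]
    rw [Finset.sum_sub_distrib]
    ring
  simp only [h2]
  rw [← Complex.re_sum, h1]
  have hm0 : (m : ℝ) ≠ 0 := by exact_mod_cast NeZero.ne m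
  by_cases hall : ∀ i : Fin L, c r (s + i) = wd i
  · rw [if_pos hall, if_pos (fun i => sub_eq_zero.2 (hall i))]
    have : ((m : ℂ) ^ L).re = (m : ℝ) ^ L := by
      rw [← Complex.ofReal_natCast, ← Complex.ofReal_pow, Complex.ofReal_re]
    rw [this, ← mul_pow, one_div, inv_mul_cancel₀ hm0, one_pow]
  · rw [if_neg hall, if_neg (fun h => hall fun i => sub_eq_zero.1 (h i))]
    simp

/-- **All patterns have the right frequency along every increasing sequence.** -/
theorem freq (H : Tri c) (hm : ∀ a, Measurable (ξ a)) (hi : iIndepFun ξ P)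
    (hs : ∀ K : ℝ, ∃ b : ℕ, Spread P ξ K b) {s : ℕ → ℕ} (hs' : StrictMono s) :
    ∀ᵐ ω ∂P, ∀ (L : ℕ) (wd : Fin L → ZMod m),
      Tendsto (fun x : ℕ => (((Finset.range x).filter fun k => ∀ i : Fin L,
        c (fun a => ξ a ω) (s k + i) = wd i).card : ℝ) / x) atTop (𝓝 ((1 / m) ^ L)) := by
  rw [ae_all_iff]
  intro L
  filter_upwards [signs H hm hi hs hs' L] with ω hω wd
  have h1 : ∀ x : ℕ, (((Finset.range x).filter fun k => ∀ i : Fin L,
      c (fun a => ξ a ω) (s k + i) = wd i).card : ℝ) / x =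
      (1 / m) ^ L * ∑ t : Fin L → ZMod m,
        ((∑ k ∈ Finset.range x, (e (Z c (s k) (-∑ i, t i * wd i) t (fun a => ξ a ω))).re) / x) := by
    intro x
    rw [Finset.card_filter]
    push_cast
    rw [Finset.sum_congr rfl fun k _ => indicator_eq (c := c) (fun a => ξ a ω) (s k) L wd,
      ← Finset.mul_sum, Finset.sum_comm, mul_div_assoc, Finset.sum_div]
  have h2 : Tendsto (fun x : ℕ => (1 / m : ℝ) ^ L * ∑ t : Fin L → ZMod m,
      ((∑ k ∈ Finset.range x, (e (Z c (s k) (-∑ i, t i * wd i) t (fun a => ξ a ω))).re) / x)) atTop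
      (𝓝 ((1 / m : ℝ) ^ L * ∑ t : Fin L → ZMod m, (if t = 0 then (1 : ℝ) else 0))) := by
    refine Tendsto.const_mul _ (tendsto_finset_sum _ fun t _ => ?_)
    by_cases ht : t = 0
    · subst ht
      rw [if_pos rfl]
      refine tendsto_const_nhds.congr' ?_
      filter_upwards [eventually_ge_atTop 1] with x hx
      have : (x : ℝ) ≠ 0 := by
        have : (0 : ℝ) < x := by exact_mod_cast hx
        exact this.ne'
      simp [Z, e_zero, this]
    · rw [if_neg ht]
      exact hω t _ ht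
  have h3 : ∑ t : Fin L → ZMod m, (if t = 0 then (1 : ℝ) else 0) = 1 := by
    rw [Finset.sum_ite_eq', if_pos (Finset.mem_univ _)]
  rw [h3, mul_one] at h2
  exact h2.congr fun x => (h1 x).symm

end Pool.Agent.R978.PM
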