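import Pool.Agent.R978.PM.C

/-!
# Partitions with randomly deleted parts modulo `m` (helper978)
-/

set_option autoImplicit false
set_option linter.unusedSectionVars false

open MeasureTheory ProbabilityTheory Filter Topology

namespace Pool.Agent.R978.PM

open Pool.Agent.R978.PD (tr tr_congr rho av av_zero av_step avoiding avoiding_eq ind ind_iff)
open PowerSeries

variable {m : ℕ} [NeZero m]

/-- the generating series modulo `m` -/
noncomputable def ser (m : ℕ) (r : ℕ → Bool) : (ZMod m)⟦X⟧ :=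
  PowerSeries.mk fun n => (av r n : ZMod m)

/-- the large deleted parts -/
noncomputable def big (m : ℕ) (r : ℕ → Bool) (h : ℕ) : (ZMod m)⟦X⟧ :=
  PowerSeries.mk fun a => if h < a ∧ r a = true then 1 else 0

theorem coeff_mul_big (F : (ZMod m)⟦X⟧) (r : ℕ → Bool) (h n : ℕ) :
    PowerSeries.coeff n (F * (1 + big m r h)) =
      PowerSeries.coeff n F + ∑ a ∈ Finset.Ioc h n, (if r a then PowerSeries.coeff (n - a) F else 0) := by
  rw [mul_add, mul_one, map_add]
  congr 1
  rw [mul_comm, PowerSeries.coeff_mul, Finset.Nat.sum_antidiagonal_eq_sum_range_succ_mk]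
  have h1 : Finset.Ioc h n ⊆ Finset.range n.succ := by
    intro a ha
    rw [Finset.mem_Ioc] at ha
    rw [Finset.mem_range]
    omega
  rw [← Finset.sum_subset h1]
  · refine Finset.sum_congr rfl fun a ha => ?_
    rw [Finset.mem_Ioc] at ha
    unfold big
    rw [PowerSeries.coeff_mk]
    by_cases hr : r a = true
    · rw [if_pos ⟨ha.1, hr⟩, if_pos hr, one_mul]
    · rw [if_neg (fun hh => hr hh.2), if_neg hr, zero_mul]
  · intro a ha hna
    rw [Finset.mem_range] at ha
    rw [Finset.mem_Ioc] at hna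
    unfold big
    rw [PowerSeries.coeff_mk, if_neg, zero_mul]
    rintro ⟨h2, -⟩
    omega

theorem ser_tr (r : ℕ → Bool) (h : ℕ) :
    (PowerSeries.X : (ZMod m)⟦X⟧) ^ (2 * h + 2) ∣ ser m (tr h r) - ser m r * (1 + big m r h) := by
  rw [PowerSeries.X_pow_dvd_iff]
  intro n hn
  rw [map_sub, coeff_mul_big]
  unfold ser
  simp only [PowerSeries.coeff_mk]
  rw [av_step r h n (by omega), sub_eq_zero]
  push_cast
  rfl

/-- the coefficients of `B * (series of the partitions avoiding r)` -/
noncomputable def cB (B : (ZMod m)⟦X⟧) (r : ℕ → Bool) (n : ℕ) : ZMod m :=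
  PowerSeries.coeff n (B * ser m r)

theorem tri_cB {B : (ZMod m)⟦X⟧} (hB : PowerSeries.coeff 0 B = 1) : Tri (cB B) where
  zero := by
    intro r
    unfold cB
    rw [PowerSeries.coeff_zero_eq_constantCoeff_apply] at hB ⊢
    rw [map_mul, hB, one_mul, ← PowerSeries.coeff_zero_eq_constantCoeff_apply]
    unfold ser
    rw [PowerSeries.coeff_mk, av_zero, Nat.cast_one]
  step := by
    intro r h n hn
    have h2 : (PowerSeries.X : (ZMod m)⟦X⟧) ^ (2 * h + 2) ∣
        B * ser m (tr h r) - (B * ser m r) * (1 + big m r h) := by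
      rw [mul_assoc, ← mul_sub]
      exact (ser_tr r h).mul_left _
    rw [PowerSeries.X_pow_dvd_iff] at h2
    have h3 := h2 n (by omega)
    rw [map_sub, coeff_mul_big, sub_eq_zero] at h3
    unfold cB
    rw [h3]
    have h4 : ∑ a ∈ Finset.Ioc h n, (if r a then -PowerSeries.coeff (n - a) (B * ser m r) else 0) =
        -∑ a ∈ Finset.Ioc h n, (if r a then PowerSeries.coeff (n - a) (B * ser m r) else 0) := by
      rw [← Finset.sum_neg_distrib]
      refine Finset.sum_congr rfl fun a _ => ?_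
      split_ifs <;> simp
    rw [h4]
    ring

variable {Ω : Type} [MeasurableSpace Ω] {P : Measure Ω} [IsProbabilityMeasure P]

theorem main (R : Ω → Set ℕ) (hm : ∀ a : ℕ, MeasurableSet {ω | a ∈ R ω})
    (hi : iIndepSet (fun a : ℕ => {ω | a ∈ R ω}) P)
    (hR : ∀ K : ℝ, ∀ᶠ a : ℕ in atTop, K * √(Real.log a / a) ≤ P.real {ω | a ∈ R ω} ∧
      P.real {ω | a ∈ R ω} ≤ 1 - K * √(Real.log a / a))
    {B : PowerSeries (ZMod m)} (hB : PowerSeries.coeff 0 B = 1)
    {s : ℕ → ℕ} (hs : StrictMono s) :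
    ∀ᵐ ω ∂P, ∀ (L : ℕ) (w : Fin L → ZMod m),
      Tendsto (fun x : ℕ => (((Finset.range x).filter fun k => ∀ i : Fin L,
        cB B (ind (R ω)) (s k + i) = w i).card : ℝ) / x) atTop (𝓝 ((1 / m) ^ L)) := by
  have hset : ∀ a : ℕ, {ω | ind (R ω) a = true} = {ω | a ∈ R ω} := by
    intro a
    ext ω
    exact ind_iff _ _
  have hm' : ∀ a : ℕ, Measurable fun ω => ind (R ω) a := by
    intro a
    refine measurable_to_bool ?_
    have : (fun ω => ind (R ω) a) ⁻¹' {true} = {ω | a ∈ R ω} := by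
      rw [← hset a]
      rfl
    rw [this]
    exact hm a
  have hi' : iIndepFun (fun a ω => ind (R ω) a) P := by
    have h1 := hi.iIndepFun_indicator (β := ℕ) (m := ⊤)
    have h2 := h1.comp (fun _ (x : ℕ) => decide (x = 1)) (fun _ => measurable_from_top)
    refine h2.congr fun a => ?_
    refine Eventually.of_forall fun ω => ?_
    by_cases h : a ∈ R ω
    · simp [ind, h, Set.indicator]
    · simp [ind, h, Set.indicator]
  have hsp : ∀ K : ℝ, ∃ b : ℕ, Spread P (fun a ω => ind (R ω) a) K b := by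
    intro K
    obtain ⟨b, hb⟩ := eventually_atTop.1 (hR K)
    refine ⟨b, fun a ha => ?_⟩
    have h3 := hb a ha.le
    unfold rho
    rw [hset a]
    exact h3
  exact freq (tri_cB hB) hm' hi' hsp hs

theorem cB_one (R : Set ℕ) (n : ℕ) :
    cB (1 : PowerSeries (ZMod m)) (ind R) n = (avoiding R n : ZMod m) := by
  unfold cB ser
  rw [one_mul, PowerSeries.coeff_mk, avoiding_eq]

theorem cB_gen (R : Set ℕ) (B : ℕ → ℤ) (n : ℕ) :
    cB (PowerSeries.mk fun j => (B j : ZMod m)) (ind R) n =
      ((∑ ab ∈ Finset.HasAntidiagonal.antidiagonal n, B ab.1 * (avoiding R ab.2 : ℤ) : ℤ) :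
        ZMod m) := by
  unfold cB
  rw [PowerSeries.coeff_mul]
  push_cast
  refine Finset.sum_congr rfl fun ab _ => ?_
  unfold ser
  rw [PowerSeries.coeff_mk, PowerSeries.coeff_mk, avoiding_eq]

end Pool.Agent.R978.PM
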